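import Pool.Agent.Helper44_Art.Stmt2

/-!
# Squad ART: module LETT
-/

set_option autoImplicit false

namespace Art.H26

open Art

section
variable {S : Type} {M : CoxeterMatrix S} (P : Fin2 M)

lemma ref_self (z : S) (i : ℕ) : ref P.f z z i = P.f z := by
  unfold ref
  rw [P.sq, one_pow, one_mul]

lemma supp_of_eq (x y z : S) (i : ℕ) (hM : M.M x y ≠ 0) (h : ref P.f x y i = P.f z) :
    InSupp P.f x y i z := by
  have hz : M.M z z ≠ 0 := by rw [M.diagonal]; exact one_ne_zero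
  have h1 : InSupp P.f z z 0 z := ⟨Or.inl rfl, Or.inl (ref_self P z 0)⟩
  exact (P.uniq x y z z i 0 hM hz (by rw [h, ref_self]) z).2 h1

lemma inv_rot (x y : S) : (P.f x * P.f y)⁻¹ = P.f y * P.f x := by
  rw [mul_inv_rev]
  have h1 : (P.f x)⁻¹ = P.f x := inv_eq_of_mul_eq_one_left (P.sq x)
  have h2 : (P.f y)⁻¹ = P.f y := inv_eq_of_mul_eq_one_left (P.sq y)
  rw [h1, h2]

lemma ref_eq_iff (x y : S) (hxy : x ≠ y) (hM : M.M x y ≠ 0) (i j : ℕ) :
    ref P.f x y i = ref P.f x y j ↔ i ≡ j [MOD M.M x y] := by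
  unfold ref
  rw [mul_left_inj, ← P.ord x y hxy hM]
  exact pow_eq_pow_iff_modEq

lemma ref_zero (x y : S) : ref P.f x y 0 = P.f x := by
  unfold ref
  rw [pow_zero, one_mul]

lemma ref_last (x y : S) (hxy : x ≠ y) (hM : M.M x y ≠ 0) :
    ref P.f x y (M.M x y - 1) = P.f y := by
  have h1 : (P.f x * P.f y) ^ M.M x y = 1 := by
    rw [← P.ord x y hxy hM]; exact pow_orderOf_eq_one _
  obtain ⟨m, hm⟩ : ∃ m, M.M x y = m + 1 := ⟨M.M x y - 1, by omega⟩
  rw [hm] at h1 ⊢
  rw [Nat.add_sub_cancel]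
  unfold ref
  rw [pow_succ] at h1
  have h2 : (P.f x * P.f y) ^ m = (P.f x * P.f y)⁻¹ := eq_inv_of_mul_eq_one_left h1
  rw [h2, inv_rot, mul_assoc, P.sq, mul_one]

lemma ref_swap (x y : S) (hxy : x ≠ y) (hM : M.M x y ≠ 0) (i : ℕ) :
    ref P.f x y i = ref P.f y x ((M.M x y - 1) * (i + 1)) := by
  have h1 : (P.f x * P.f y) ^ M.M x y = 1 := by
    rw [← P.ord x y hxy hM]; exact pow_orderOf_eq_one _
  unfold ref
  have h2 : P.f y = (P.f x * P.f y)⁻¹ * P.f x := by
    rw [inv_rot, mul_assoc, P.sq, mul_one]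
  have h3 : (P.f y * P.f x) ^ ((M.M x y - 1) * (i + 1)) * P.f y =
      ((P.f x * P.f y) ^ ((M.M x y - 1) * (i + 1) + 1))⁻¹ * P.f x := by
    rw [← inv_rot, inv_pow, pow_succ', mul_inv_rev, mul_assoc]
    congr 1
  rw [h3]
  congr 1
  rw [eq_inv_iff_mul_eq_one, ← pow_add]
  have h4 : i + ((M.M x y - 1) * (i + 1) + 1) = M.M x y * (i + 1) := by
    obtain ⟨m, hm⟩ : ∃ m, M.M x y = m + 1 := ⟨M.M x y - 1, by omega⟩
    rw [hm, Nat.add_sub_cancel]
    ring
  rw [h4, pow_mul, h1, one_pow]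

end

lemma per_modEq {A : Type} (α : ℕ → A) (m : ℕ) (h : ∀ i, α (i + m) = α i) {i j : ℕ}
    (hij : i ≡ j [MOD m]) : α i = α j := by
  have key : ∀ n i, α (i + n * m) = α i := by
    intro n
    induction n with
    | zero => intro i; simp
    | succ n ih =>
      intro i
      rw [show i + (n + 1) * m = (i + n * m) + m by ring, h, ih]
  have h1 : ∀ i, α i = α (i % m) := by
    intro i
    conv_lhs => rw [← Nat.mod_add_div i m, mul_comm m]
    exact key _ _
  rw [h1 i, h1 j]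
  congr 1

/-- LETT. -/
theorem lett (hAtom : AtomStmt) : LettStmt := by
  classical
  intro S _ M S0 P A _ a ha
  -- an injective numbering
  let enc : S → ℕ := fun s => ((Fintype.equivFin S) s : ℕ)
  have henc : ∀ s t, enc s = enc t → s = t := by
    intro s t h
    exact (Fintype.equivFin S).injective (Fin.ext h)
  -- atoms
  have hat : ∀ x y : S, ∃ α : ℕ → A, (x ∈ S0 → y ∈ S0 → x ≠ y → M.M x y ≠ 0 →
      α 0 = a x ∧ α (M.M x y - 1) = a y ∧ (∀ i, α (i + M.M x y) = α i) ∧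
      (∀ i, alt (M.M x y) (α i) (α (i + 1)) = alt (M.M x y) (α (i + 1)) (α i)) ∧
      (Even (M.M x y) → ∀ i, α (i + 2) = α i) ∧
      (∀ i, α i ∈ Subgroup.closure {a x, a y})) := by
    intro x y
    by_cases h : x ∈ S0 ∧ y ∈ S0 ∧ x ≠ y ∧ M.M x y ≠ 0
    · obtain ⟨hx, hy, hxy, hM⟩ := h
      have h1 := M.off_diagonal x y hxy
      obtain ⟨α, hα⟩ := hAtom (a x) (a y) (M.M x y) (by omega) (ha x hx y hy hM)
      exact ⟨α, fun _ _ _ _ => hα⟩
    · exact ⟨fun _ => 1, fun hx hy hxy hM => absurd ⟨hx, hy, hxy, hM⟩ h⟩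
  choose α hα using hat
  -- the letters
  let H1 : P.F → Prop := fun t => ∃ z, z ∈ S0 ∧ t = P.f z
  let H2 : P.F → Prop := fun t => ∃ q : S × S × ℕ, q.1 ∈ S0 ∧ q.2.1 ∈ S0 ∧ q.1 ≠ q.2.1 ∧
    M.M q.1 q.2.1 ≠ 0 ∧ enc q.1 < enc q.2.1 ∧ t = ref P.f q.1 q.2.1 q.2.2
  let ν : P.F → A := fun t =>
    if h : H1 t then a h.choose
    else if h : H2 t then α h.choose.1 h.choose.2.1 h.choose.2.2 else 1
  have hν1 : ∀ z ∈ S0, ν (P.f z) = a z := by
    intro z hz
    have h : H1 (P.f z) := ⟨z, hz, rfl⟩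
    change (if h : H1 (P.f z) then a h.choose
      else if h : H2 (P.f z) then α h.choose.1 h.choose.2.1 h.choose.2.2 else 1) = a z
    rw [dif_pos h]
    congr 1
    exact P.inj _ _ h.choose_spec.2.symm
  have hA : ∀ x ∈ S0, ∀ y ∈ S0, x ≠ y → M.M x y ≠ 0 → enc x < enc y → ∀ i,
      ν (ref P.f x y i) = α x y i := by
    intro x hx y hy hxy hM hlt i
    obtain ⟨h0, hl, hper, -, -, -⟩ := hα x y hx hy hxy hM
    by_cases h : H1 (ref P.f x y i)
    · obtain ⟨z, hz, hzt⟩ := h
      rw [hzt, hν1 z hz]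
      have hs := supp_of_eq P x y z i hM hzt
      rcases hs.1 with rfl | rfl
      · rw [← h0]
        apply per_modEq _ _ hper
        rw [← ref_zero P z y] at hzt
        exact ((ref_eq_iff P z y hxy hM _ _).1 hzt).symm
      · rw [← hl]
        apply per_modEq _ _ hper
        rw [← ref_last P x z hxy hM] at hzt
        exact ((ref_eq_iff P x z hxy hM _ _).1 hzt).symm
    · have h2 : H2 (ref P.f x y i) := ⟨(x, y, i), hx, hy, hxy, hM, hlt, rfl⟩
      change (if h : H1 (ref P.f x y i) then a h.choose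
        else if h : H2 (ref P.f x y i) then α h.choose.1 h.choose.2.1 h.choose.2.2 else 1) = _
      rw [dif_neg h, dif_pos h2]
      obtain ⟨hq1, hq2, hq3, hq4, hq5, hq6⟩ := h2.choose_spec
      set q := h2.choose with hq
      have hnx : ref P.f x y i ≠ P.f x := fun e => h ⟨x, hx, e⟩
      have hny : ref P.f x y i ≠ P.f y := fun e => h ⟨y, hy, e⟩
      have hsx : InSupp P.f x y i x := ⟨Or.inl rfl, Or.inr ⟨hnx, hny⟩⟩
      have hsy : InSupp P.f x y i y := ⟨Or.inr rfl, Or.inr ⟨hnx, hny⟩⟩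
      have hu := P.uniq x y q.1 q.2.1 i q.2.2 hM hq4 hq6
      have h3 := ((hu x).1 hsx).1
      have h4 := ((hu y).1 hsy).1
      have h5 : x = q.1 ∧ y = q.2.1 := by
        rcases h3 with h3 | h3
        · rcases h4 with h4 | h4
          · exact absurd (h3.trans h4.symm) hxy
          · exact ⟨h3, h4⟩
        · rcases h4 with h4 | h4
          · exfalso
            rw [← h3, ← h4] at hq5
            omega
          · exact absurd (h3.trans h4.symm) hxy
      rw [← h5.1, ← h5.2]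
      apply per_modEq _ _ hper
      have h6 : ref P.f x y i = ref P.f x y q.2.2 := by
        rw [hq6, ← h5.1, ← h5.2]
      exact ((ref_eq_iff P x y hxy hM _ _).1 h6).symm
  have hB : ∀ x ∈ S0, ∀ y ∈ S0, x ≠ y → M.M x y ≠ 0 → enc y < enc x → ∀ i,
      ν (ref P.f x y i) = α y x ((M.M y x - 1) * (i + 1)) := by
    intro x hx y hy hxy hM hlt i
    have hM' : M.M y x ≠ 0 := by rw [M.symmetric y x]; exact hM
    rw [ref_swap P x y hxy hM, hA y hy x hx hxy.symm hM' hlt, M.symmetric x y]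
  refine ⟨ν, ⟨hν1, ?_, ?_, ?_⟩⟩
  · intro x hx y hy hxy hM i
    rcases lt_or_ge (enc x) (enc y) with hlt | hge
    · rw [hA x hx y hy hxy hM hlt, hA x hx y hy hxy hM hlt]
      exact (hα x y hx hy hxy hM).2.2.2.1 i
    · have hlt : enc y < enc x := lt_of_le_of_ne hge (fun e => hxy (henc _ _ e).symm)
      have hM' : M.M y x ≠ 0 := by rw [M.symmetric y x]; exact hM
      obtain ⟨-, -, hper, hadj, -, -⟩ := hα y x hy hx hxy.symm hM'
      rw [hB x hx y hy hxy hM hlt, hB x hx y hy hxy hM hlt]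
      have e1 : α y x ((M.M y x - 1) * (i + 1)) = α y x ((M.M y x - 1) * (i + 1 + 1) + 1) := by
        rw [← hper]
        congr 1
        obtain ⟨m, hm⟩ : ∃ m, M.M y x = m + 1 := ⟨M.M y x - 1, by omega⟩
        rw [hm, Nat.add_sub_cancel]
        ring
      rw [e1, M.symmetric x y]
      exact (hadj _).symm
  · intro x hx y hy hxy hM hev i
    rcases lt_or_ge (enc x) (enc y) with hlt | hge
    · rw [hA x hx y hy hxy hM hlt, hA x hx y hy hxy hM hlt]
      exact (hα x y hx hy hxy hM).2.2.2.2.1 hev i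
    · have hlt : enc y < enc x := lt_of_le_of_ne hge (fun e => hxy (henc _ _ e).symm)
      have hM' : M.M y x ≠ 0 := by rw [M.symmetric y x]; exact hM
      obtain ⟨-, -, -, -, heven, -⟩ := hα y x hy hx hxy.symm hM'
      rw [hB x hx y hy hxy hM hlt, hB x hx y hy hxy hM hlt]
      have hev' : Even (M.M y x) := by rw [M.symmetric y x]; exact hev
      have h2 := heven hev'
      have e1 : (M.M y x - 1) * (i + 2 + 1) = (M.M y x - 1) * (i + 1) + (M.M y x - 1) * 2 := by
        ring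
      rw [e1]
      apply per_modEq _ 2 h2
      unfold Nat.ModEq
      rw [Nat.add_mul_mod_self_right]
  · intro x hx y hy hM i
    by_cases hxy : x = y
    · subst hxy
      rw [ref_self, hν1 x hx]
      apply Subgroup.subset_closure
      exact ⟨x, ⟨Or.inl rfl, Or.inl (ref_self P x i)⟩, rfl⟩
    · by_cases h : H1 (ref P.f x y i)
      · obtain ⟨z, hz, hzt⟩ := h
        have hs := supp_of_eq P x y z i hM hzt
        rw [hzt, hν1 z hz]
        apply Subgroup.subset_closure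
        exact ⟨z, hs, rfl⟩
      · have hnx : ref P.f x y i ≠ P.f x := fun e => h ⟨x, hx, e⟩
        have hny : ref P.f x y i ≠ P.f y := fun e => h ⟨y, hy, e⟩
        have hsx : InSupp P.f x y i x := ⟨Or.inl rfl, Or.inr ⟨hnx, hny⟩⟩
        have hsy : InSupp P.f x y i y := ⟨Or.inr rfl, Or.inr ⟨hnx, hny⟩⟩
        rcases lt_or_ge (enc x) (enc y) with hlt | hge
        · rw [hA x hx y hy hxy hM hlt]
          refine Subgroup.closure_mono ?_ ((hα x y hx hy hxy hM).2.2.2.2.2 i)
          rintro c hc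
          rcases hc with hc | hc
          · exact ⟨x, hsx, hc⟩
          · exact ⟨y, hsy, hc⟩
        · have hlt : enc y < enc x := lt_of_le_of_ne hge (fun e => hxy (henc _ _ e).symm)
          have hM' : M.M y x ≠ 0 := by rw [M.symmetric y x]; exact hM
          rw [hB x hx y hy hxy hM hlt]
          refine Subgroup.closure_mono ?_ ((hα y x hy hx (Ne.symm hxy) hM').2.2.2.2.2 _)
          rintro c hc
          rcases hc with hc | hc
          · exact ⟨y, hsy, hc⟩
          · exact ⟨x, hsx, hc⟩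

end Art.H26
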